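import Mathlib
import Pool.Agent.Run7.h880.RP.PrW

/-!
# MP_b8a134_nt: random positions on both sides of the primes

The gaps of the question begin at a prime `x = p`. We look for primes at `m` random positions on each side of the primes `p` of
`(N, 2 N]`: `p + v j` and `p - w j`, with `v j`, `w j` independent and uniform in `[1, q]`, where `q ≥ N^(1/3) log^C N` (the
length `√p` of the question is allowed). For `m = lam log² N` the pairs `(x, y)` of the two counts, divided by their expected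
value `lam log N`, for the different `p` fill, in probability, the region `lam (rate x + rate y) ≤ 1`; only a fixed set of
`N / log^U N` integers is left out.
-/

set_option autoImplicit false

namespace Pool.Agent.Results.MP_b8a134_nt.BothSidesOfPrimes

open Finset Filter

/-- the number of the `j` for which `p + v j` is a prime -/
def after {m : ℕ} (v : Fin m → ℕ) (p : ℕ) : ℕ := (univ.filter fun j => (p + v j).Prime).card

/-- the number of the `j` for which `p - w j` is a prime -/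
def before {m : ℕ} (w : Fin m → ℕ) (p : ℕ) : ℕ := (univ.filter fun j => (p - w j).Prime).card

/-- all the `m`-tuples of integers of `[1, q]` -/
def positions (q m : ℕ) : Finset (Fin m → ℕ) := Fintype.piFinset fun _ => Icc 1 q

/-- the numbers of the primes of `[n - q, n)` and of `(n, n + q]` are `q / log N` up to the factor `1 + O(1 / log N)` -/
def Regular (N q n : ℕ) : Prop :=
  |(((Icc 1 q).filter fun w => (n - w).Prime).card : ℝ) / q - 1 / Real.log N| ≤ 20 / Real.log N ^ 2 ∧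
  |(((Icc 1 q).filter fun w => (n + w).Prime).card : ℝ) / q - 1 / Real.log N| ≤ 20 / Real.log N ^ 2

/-- the rate function of the Poisson law -/
noncomputable def rate (u : ℝ) : ℝ := 1 - u + u * Real.log u

/-- the limit shape -/
def Region (lam : ℝ) : Set (ℝ × ℝ) := {z | 0 ≤ z.1 ∧ 0 ≤ z.2 ∧ lam * (rate z.1 + rate z.2) ≤ 1}

/-- the distance of `z` from the pair of the two counts of `p`, divided by their expected value `lam log N` -/
noncomputable def dist (lam : ℝ) (N : ℕ) {m : ℕ} (w v : Fin m → ℕ) (p : ℕ) (z : ℝ × ℝ) : ℝ :=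
  |before w p / (lam * Real.log N) - z.1| + |after v p / (lam * Real.log N) - z.2|

/-- the pairs of normalized counts for the regular primes of `(N, 2 N]` fill the region, up to `ε` -/
def Fills (lam ε : ℝ) (N q : ℕ) {m : ℕ} (w v : Fin m → ℕ) : Prop :=
  (∀ p ∈ Ioc N (2 * N), p.Prime → Regular N q p → ∃ z ∈ Region lam, dist lam N w v p z ≤ ε) ∧
  (∀ z ∈ Region lam, ∃ p ∈ Ioc N (2 * N), p.Prime ∧ Regular N q p ∧ dist lam N w v p z ≤ ε)

open Classical in
theorem result :
    -- almost all integers are regular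
    (∀ U : ℕ, ∃ C N₀ : ℕ, ∀ N : ℕ, N₀ ≤ N → ∀ q : ℕ, (N : ℝ) ^ (1 / 3 : ℝ) * Real.log N ^ C ≤ q → 2 * q ≤ N →
      (((Ioc N (2 * N)).filter fun n => ¬ Regular N q n).card : ℝ) ≤ N / Real.log N ^ U) ∧
    -- the limit shape for `m = lam log² N`
    (∀ lam ε : ℝ, 0 < lam → 0 < ε → ∃ (C N₀ : ℕ) (K : ℝ), ∀ N : ℕ, N₀ ≤ N → ∀ q : ℕ,
      (N : ℝ) ^ (1 / 3 : ℝ) * Real.log N ^ C ≤ q → 2 * q ≤ N → ∀ m : ℕ, |(m : ℝ) - lam * Real.log N ^ 2| ≤ 1 →
      (((positions q m ×ˢ positions q m).filter fun r => ¬ Fills lam ε N q r.1 r.2).card : ℝ) ≤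
        K / Real.log N * ((positions q m ×ˢ positions q m).card : ℝ)) ∧
    -- the thresholds
    (∀ lam : ℝ, 0 < lam → (((0 : ℝ), (0 : ℝ)) ∈ Region lam ↔ 2 * lam ≤ 1) ∧ (((1 : ℝ), (0 : ℝ)) ∈ Region lam ↔ lam ≤ 1) ∧
      (((0 : ℝ), (1 : ℝ)) ∈ Region lam ↔ lam ≤ 1)) := by
  have hreg : ∀ N q n : ℕ, Pool.Agent.Run7.h880.RP.RegW N q n ↔ Regular N q n := by
    intro N q n
    unfold Pool.Agent.Run7.h880.RP.RegW
    constructor
    · intro h
      exact ⟨h false, h true⟩
    · rintro ⟨h3, h4⟩ b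
      cases b
      · exact h3
      · exact h4
  have hmem : ∀ N q p : ℕ, p ∈ Pool.Agent.Run7.h880.RP.GP N q ↔ p ∈ Ioc N (2 * N) ∧ p.Prime ∧ Regular N q p := by
    intro N q p
    unfold Pool.Agent.Run7.h880.RP.GP
    simp only [mem_filter, hreg]
  have hbad : ∀ N q : ℕ, (Ioc N (2 * N)).filter (fun n => ¬ Regular N q n) =
      Ioc N (2 * N) \ Pool.Agent.Run7.h880.RP.GoodW N q := by
    intro N q
    ext n
    unfold Pool.Agent.Run7.h880.RP.GoodW
    simp only [Finset.mem_sdiff, mem_filter, hreg]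
    tauto
  have hhits0 : ∀ (q m : ℕ) (w : Fin m → ℕ), w ∈ positions q m → ∀ n : ℕ,
      Pool.Agent.Run7.h880.MK.hits (Pool.Agent.Run7.h880.RP.wA n q false) w = before w n := by
    intro q m w hw n
    unfold Pool.Agent.Run7.h880.MK.hits before Pool.Agent.Run7.h880.RP.wA
    congr 1
    refine filter_congr fun l _ => ?_
    rw [mem_filter]
    unfold positions at hw
    rw [Fintype.mem_piFinset] at hw
    simp only [Bool.false_eq_true, if_false]
    exact ⟨fun h => h.2, fun h => ⟨hw l, h⟩⟩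
  have hhits1 : ∀ (q m : ℕ) (w : Fin m → ℕ), w ∈ positions q m → ∀ n : ℕ,
      Pool.Agent.Run7.h880.MK.hits (Pool.Agent.Run7.h880.RP.wA n q true) w = after w n := by
    intro q m w hw n
    unfold Pool.Agent.Run7.h880.MK.hits after Pool.Agent.Run7.h880.RP.wA
    congr 1
    refine filter_congr fun l _ => ?_
    rw [mem_filter]
    unfold positions at hw
    rw [Fintype.mem_piFinset] at hw
    simp only [if_true]
    exact ⟨fun h => h.2, fun h => ⟨hw l, h⟩⟩
  refine ⟨?_, ?_, ?_⟩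
  · intro U
    obtain ⟨C, N₀, h⟩ := Pool.Agent.Run7.h880.RP.goodw_card U
    refine ⟨C, N₀, fun N hN q h1 h2 => ?_⟩
    rw [hbad]
    exact h N hN q h1 h2
  · intro lam ε hlam hε
    obtain ⟨C, K, hK, N₂, h2⟩ := Pool.Agent.Run7.h880.RP.main_prw lam ε hlam hε
    refine ⟨C, N₂, K, fun N hN q hq1 hq2 m hm => ?_⟩
    have key : ∀ r : (Fin m → ℕ) × (Fin m → ℕ),
        (r ∈ positions q m ×ˢ positions q m ∧ ¬ Fills lam ε N q r.1 r.2) →
        ¬ Pool.Agent.Run7.h880.RP.Shape (Pool.Agent.Run7.h880.RP.GP N q)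
          (fun p => Pool.Agent.Run7.h880.RP.wA p q false) (fun p => Pool.Agent.Run7.h880.RP.wA p q true)
          (lam * Real.log N) (Pool.Agent.Run7.h880.RP.Reg2 1 lam) ε r := by
      rintro r ⟨hp, hnot⟩ hsh
      rw [mem_product] at hp
      refine hnot ?_
      unfold Pool.Agent.Run7.h880.RP.Shape at hsh
      obtain ⟨s1, s2⟩ := hsh
      constructor
      · intro p hp1 hp2 hp3
        obtain ⟨z, hz, h4⟩ := s1 p ((hmem N q p).2 ⟨hp1, hp2, hp3⟩)
        rw [hhits0 q m r.1 hp.1, hhits1 q m r.2 hp.2] at h4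
        exact ⟨z, hz, h4⟩
      · intro z hz
        obtain ⟨p, hn, h4⟩ := s2 z hz
        rw [hhits0 q m r.1 hp.1, hhits1 q m r.2 hp.2] at h4
        obtain ⟨a1, a2, a3⟩ := (hmem N q p).1 hn
        exact ⟨p, a1, a2, a3, h4⟩
    refine le_trans ?_ (h2 N hN q hq1 hq2 m hm
      (fun r => r ∈ positions q m ×ˢ positions q m ∧ ¬ Fills lam ε N q r.1 r.2) key)
    refine Nat.cast_le.2 (card_le_card fun p hp => ?_)
    simp only [Finset.mem_filter] at hp ⊢
    exact ⟨hp.1, hp⟩
  · intro lam hlam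
    have r0 : rate 0 = 1 := by simp [rate]
    have r1 : rate 1 = 0 := by simp [rate]
    refine ⟨?_, ?_, ?_⟩
    · show (0 ≤ (0 : ℝ) ∧ 0 ≤ (0 : ℝ) ∧ lam * (rate 0 + rate 0) ≤ 1) ↔ _
      rw [r0]
      constructor
      · rintro ⟨_, _, h⟩
        linarith
      · intro h
        exact ⟨le_rfl, le_rfl, by linarith⟩
    · show (0 ≤ (1 : ℝ) ∧ 0 ≤ (0 : ℝ) ∧ lam * (rate 1 + rate 0) ≤ 1) ↔ _
      rw [r0, r1]
      constructor
      · rintro ⟨_, _, h⟩
        linarith
      · intro h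
        exact ⟨zero_le_one, le_rfl, by linarith⟩
    · show (0 ≤ (0 : ℝ) ∧ 0 ≤ (1 : ℝ) ∧ lam * (rate 0 + rate 1) ≤ 1) ↔ _
      rw [r0, r1]
      constructor
      · rintro ⟨_, _, h⟩
        linarith
      · intro h
        exact ⟨le_rfl, zero_le_one, by linarith⟩

end Pool.Agent.Results.MP_b8a134_nt.BothSidesOfPrimes
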