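import Pool.Agent.Run7.h946.SQ.Tot

/-!
# Primes between `x` and `x + √x` near good rational approximations

`1, α_1, …, α_r` are linearly independent over `ℚ`. For almost all real `d`-tuples `θ` and all but finitely many good rational
approximations `p / q` of `θ`, for ALL the real numbers `x` whose integer part is a small integral combination of
`p_1, …, p_d, q, 1`, the interval `(x, x + √x)` contains primes of all the Bohr sets of `α` of density at least `δ`, and the
number of the primes of every Bohr set in it is the expected one.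
-/

set_option autoImplicit false
set_option maxHeartbeats 4000000

namespace Pool.Agent.Results.MP_b8a134_nt.NearApproximations

open Finset Filter Topology MeasureTheory
open Run7.h946.SQ (Bohr Independent cnt Good)
open Run7.h469.Tm (GoodApproximation Near)

/-- the number of the primes in `(x, x + √x)` with `α p` in the box `[u, v)` modulo one -/
noncomputable def number {r : ℕ} (α u v : Fin r → ℝ) (x : ℝ) : ℕ :=
  {p : ℕ | x < p ∧ (p : ℝ) < x + √x ∧ Bohr α u v p}.ncard

/-- In the interval `(x, x + √x)` there is a prime `p` with `α p` in the box, for every box of volume at least `δ`, and the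
number of such primes is the expected number `vol √x / log x` for every box, up to the relative error `ε`. -/
def SchinzelAt {r : ℕ} (α : Fin r → ℝ) (δ ε x : ℝ) : Prop :=
  ∀ u v : Fin r → ℝ, (∀ j, u j ≤ v j) → (∀ j, v j ≤ u j + 1) →
    (δ ≤ ∏ j, (v j - u j) → ∃ p : ℕ, x < p ∧ (p : ℝ) < x + √x ∧ Bohr α u v p) ∧
    |(number α u v x : ℝ) - (∏ j, (v j - u j)) * (√x / Real.log x)| ≤ ε * (√x / Real.log x)

/-- the final estimate -/
theorem final {c w T y l L η : ℝ} (hw0 : 0 ≤ w) (hw1 : w ≤ 1) (hη0 : 0 < η) (hη1 : η ≤ 1) (hl : 1 ≤ l) (hy : 8 / η ≤ y)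
    (hL1 : 2 * l ≤ L) (hL2 : (L - 2 * l) * (y + 1) ≤ 6) (hT1 : y - 1 ≤ T) (hT2 : T ≤ y + 1)
    (h : |c - w * (T / (2 * l))| ≤ η * (T / (2 * l))) : |c - w * (y / L)| ≤ 4 * η * (y / L) := by
  have hL0 : 0 < L := by linarith
  have hl0 : 0 < l := by linarith
  have hy8 : 8 ≤ η * y := by
    rw [div_le_iff₀ hη0] at hy
    linarith
  have hy0 : 8 ≤ y := by nlinarith
  have hT0 : 0 ≤ T := by linarith
  have hq : 0 ≤ y / L := by positivity
  -- the two main terms
  have h1 : T / (2 * l) ≤ (1 + η) * (y / L) := by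
    rw [div_le_iff₀ (by positivity)]
    have h2 : (1 + η) * (y / L) * (2 * l) = ((1 + η) * y * (2 * l)) / L := by ring
    rw [h2, le_div_iff₀ hL0]
    have h3 : T * L ≤ (y + 1) * L := mul_le_mul_of_nonneg_right hT2 hL0.le
    have h4 : (y + 1) * L ≤ (y + 1) * (2 * l) + 6 := by nlinarith
    have h5 : 2 * l + 6 ≤ η * y * (2 * l) := by nlinarith
    nlinarith
  have h2 : (1 - η) * (y / L) ≤ T / (2 * l) := by
    rw [le_div_iff₀ (by positivity)]
    have h2 : (1 - η) * (y / L) * (2 * l) = ((1 - η) * y * (2 * l)) / L := by ring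
    rw [h2, div_le_iff₀ hL0]
    have h3 : (y - 1) * (2 * l) ≤ T * L := by
      calc (y - 1) * (2 * l) ≤ (y - 1) * L := mul_le_mul_of_nonneg_left hL1 (by linarith)
        _ ≤ T * L := mul_le_mul_of_nonneg_right hT1 hL0.le
    have h5 : 2 * l ≤ η * y * (2 * l) := by nlinarith
    nlinarith
  have h3 : η * (T / (2 * l)) ≤ 2 * η * (y / L) := by
    have h4 := mul_le_mul_of_nonneg_left h1 hη0.le
    have h5 : η * ((1 + η) * (y / L)) ≤ 2 * η * (y / L) := by
      have h6 : 0 ≤ η * (y / L) := by positivity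
      nlinarith
    linarith
  have h4 : w * (T / (2 * l)) ≤ w * (y / L) + η * (y / L) := by
    have h5 := mul_le_mul_of_nonneg_left h1 hw0
    have h6 : w * (η * (y / L)) ≤ 1 * (η * (y / L)) := mul_le_mul_of_nonneg_right hw1 (by positivity)
    nlinarith
  have h5 : w * (y / L) - η * (y / L) ≤ w * (T / (2 * l)) := by
    have h5 := mul_le_mul_of_nonneg_left h2 hw0
    have h6 : w * (η * (y / L)) ≤ 1 * (η * (y / L)) := mul_le_mul_of_nonneg_right hw1 (by positivity)
    nlinarith
  have h6 : 0 ≤ η * (y / L) := by positivity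
  rw [abs_le] at h ⊢
  constructor
  · nlinarith [h.1]
  · nlinarith [h.2]

/-- the theorem for one `x` -/
theorem schinzelAt {r : ℕ} {α : Fin r → ℝ} {δ η x : ℝ} {n : ℕ} (hη0 : 0 < η) (hη1 : η ≤ 1) (hδ : η < δ)
    (hn : 20 ≤ n) (hn8 : 8 / η ≤ n) (hx1 : (n : ℝ) ^ 2 ≤ x) (hx2 : x < ((n : ℝ) + 1) ^ 2) (h : Good α 1 η n) :
    SchinzelAt α δ (4 * η) x := by
  intro u v hu hv
  have hn20 : (20 : ℝ) ≤ n := by exact_mod_cast hn
  have hx0 : 0 ≤ x := le_trans (by positivity) hx1
  have hy1 : (n : ℝ) ≤ √x := Real.le_sqrt_of_sq_le hx1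
  have hy2 : √x < n + 1 := by
    rw [Real.sqrt_lt' (by positivity)]
    exact hx2
  have hlog2 : 2 ≤ Real.log n := by
    rw [Real.le_log_iff_exp_le (by linarith)]
    have h4 : Real.exp 2 = Real.exp 1 * Real.exp 1 := by rw [← Real.exp_add]; norm_num
    have := Real.exp_one_lt_d9
    have h5 := Real.exp_pos 1
    rw [h4]
    nlinarith
  obtain ⟨s, hs⟩ : ∃ s, s = ⌊x⌋₊ := ⟨_, rfl⟩
  obtain ⟨t, ht⟩ : ∃ t, t + 1 = ⌈x + √x⌉₊ := by
    refine ⟨⌈x + √x⌉₊ - 1, ?_⟩
    have : 0 < ⌈x + √x⌉₊ := Nat.ceil_pos.2 (by linarith)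
    omega
  have hs1 : (s : ℝ) ≤ x := by rw [hs]; exact Nat.floor_le hx0
  have hs2 : x < s + 1 := by rw [hs]; exact Nat.lt_floor_add_one x
  have ht1 : x + √x ≤ t + 1 := by
    have := Nat.le_ceil (x + √x)
    rw [← ht] at this
    push_cast at this
    exact this
  have ht2 : (t : ℝ) < x + √x := by
    have := Nat.ceil_lt_add_one (show 0 ≤ x + √x by linarith)
    rw [← ht] at this
    push_cast at this
    linarith
  have hmem : ∀ p : ℕ, (x < p ∧ (p : ℝ) < x + √x) ↔ (s < p ∧ p ≤ t) := by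
    intro p
    constructor
    · rintro ⟨g1, g2⟩
      constructor
      · have : (s : ℝ) < p := by linarith
        exact_mod_cast this
      · have : (p : ℝ) < t + 1 := by linarith
        have : p < t + 1 := by exact_mod_cast this
        omega
    · rintro ⟨g1, g2⟩
      constructor
      · have : (s : ℝ) + 1 ≤ p := by exact_mod_cast g1
        linarith
      · have : (p : ℝ) ≤ t := by exact_mod_cast g2
        linarith
  have hcount : number α u v x = cnt (Bohr α u v) s t := by
    classical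
    unfold number cnt
    rw [← Set.ncard_coe_finset]
    congr 1
    ext p
    rw [Finset.coe_filter]
    constructor
    · rintro ⟨g1, g2, g3⟩
      exact ⟨mem_Ioc.2 ((hmem p).1 ⟨g1, g2⟩), g3⟩
    · rintro ⟨g1, g2⟩
      obtain ⟨g3, g4⟩ := (hmem p).2 (mem_Ioc.1 g1)
      exact ⟨g3, g4, g2⟩
  have hst : s ≤ t := by
    have : (s : ℝ) < t + 1 := by linarith
    have : s < t + 1 := by exact_mod_cast this
    omega
  have hsn : (n - 1) ^ 2 ≤ s := by
    refine (Nat.pow_le_pow_left (Nat.sub_le _ _) 2).trans ?_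
    rw [hs]
    apply Nat.le_floor
    push_cast
    exact hx1
  have htn : t ≤ (n + 2) ^ 2 := by
    have : (t : ℝ) ≤ ((n : ℝ) + 2) ^ 2 := by nlinarith
    exact_mod_cast this
  have hT1 : √x - 1 ≤ (t : ℝ) - s := by linarith
  have hT2 : (t : ℝ) - s ≤ √x + 1 := by linarith
  have hlen : (n : ℝ) / Real.log n ^ 1 ≤ (t : ℝ) - s := by
    rw [pow_one]
    have : (n : ℝ) / Real.log n ≤ n / 2 := div_le_div_of_nonneg_left (by linarith) (by norm_num) hlog2
    linarith
  constructor
  · intro hvol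
    obtain ⟨p, a1, a2, a3⟩ := h.exists (by omega) hsn hst htn hlen hu hv hδ hvol
    obtain ⟨b1, b2⟩ := (hmem p).2 ⟨a1, a2⟩
    exact ⟨p, b1, b2, a3⟩
  · have h1 := h s t hsn hst htn hlen u v hu hv
    rw [← hcount] at h1
    have hw0 : 0 ≤ ∏ j, (v j - u j) := prod_nonneg fun j _ => by linarith [hu j]
    have hw1 : ∏ j, (v j - u j) ≤ 1 := prod_le_one (fun j _ => by linarith [hu j]) (fun j _ => by linarith [hv j])
    have hL1 : 2 * Real.log n ≤ Real.log x := by
      have : Real.log ((n : ℝ) ^ 2) ≤ Real.log x := Real.log_le_log (by positivity) hx1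
      rw [Real.log_pow] at this
      push_cast at this
      exact this
    have hL2 : (Real.log x - 2 * Real.log n) * (√x + 1) ≤ 6 := by
      have e1 : Real.log x ≤ 2 * Real.log ((n : ℝ) + 1) := by
        have : Real.log x ≤ Real.log (((n : ℝ) + 1) ^ 2) := Real.log_le_log (by nlinarith) hx2.le
        rw [Real.log_pow] at this
        push_cast at this
        exact this
      have e2 : Real.log ((n : ℝ) + 1) - Real.log n ≤ 1 / n := by
        rw [← Real.log_div (by linarith) (by linarith)]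
        have e3 := Real.log_le_sub_one_of_pos (show 0 < ((n : ℝ) + 1) / n by positivity)
        have e4 : ((n : ℝ) + 1) / n - 1 = 1 / n := by field_simp; ring
        linarith
      have e5 : Real.log x - 2 * Real.log n ≤ 2 * (1 / n) := by linarith
      calc (Real.log x - 2 * Real.log n) * (√x + 1) ≤ (2 * (1 / n)) * (n + 2) :=
            mul_le_mul e5 (by linarith) (by positivity) (by positivity)
        _ = 2 + 4 / n := by field_simp; ring
        _ ≤ 6 := by
            have : 4 / (n : ℝ) ≤ 4 := div_le_self (by norm_num) (by linarith)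
            linarith
    exact final hw0 hw1 hη0 hη1 (by linarith) (hn8.trans hy1) hL1 hL2 hT1 hT2 h1

/-- **Theorem.** -/
theorem result {r : ℕ} (α : Fin r → ℝ) (hα : Independent α) (d V : ℕ) (hd : 1 ≤ d) (δ ε : ℝ) (hδ : 0 < δ) (hε : 0 < ε) :
    ∀ᵐ θ : Fin d → ℝ, {z : (Fin d → ℤ) × ℕ | GoodApproximation d V θ z.1 z.2 ∧
      ∃ x : ℝ, Near V z.1 z.2 ⌊x⌋₊ ∧ ¬ SchinzelAt α δ ε x}.Finite := by
  obtain ⟨η, hη⟩ : ∃ η, η = min (min (δ / 2) (ε / 4)) 1 := ⟨_, rfl⟩
  have hη0 : 0 < η := by rw [hη]; exact lt_min (lt_min (by positivity) (by positivity)) one_pos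
  have hη1 : η ≤ 1 := by rw [hη]; exact min_le_right _ _
  have hηδ : η ≤ δ / 2 := by rw [hη]; exact (min_le_left _ _).trans (min_le_left _ _)
  have hηε : η ≤ ε / 4 := by rw [hη]; exact (min_le_left _ _).trans (min_le_right _ _)
  obtain ⟨M, hM⟩ := exists_nat_ge (8 / η)
  have hthin := (Run7.h946.SQ.isThin_of_thin (Run7.h946.SQ.thin_good hα 1 hη0)).sqrt
  have h1 : Run7.h469.GA.Thin (fun m => ∀ x : ℝ, ⌊x⌋₊ = m → SchinzelAt α δ ε x) := by
    refine Run7.h946.SQ.thin_of_large hthin ((M + 20) ^ 2) (fun m hm hmF x hx => ?_)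
    have hg : Good α 1 η (Nat.sqrt m) := by
      by_contra hc
      exact hmF hc
    have hnm : M + 20 ≤ Nat.sqrt m := Nat.le_sqrt'.2 hm
    have hx0 : 0 ≤ x := by
      by_contra hcon
      have h0 : ⌊x⌋₊ = 0 := Nat.floor_of_nonpos (by linarith)
      rw [h0] at hx
      rw [← hx] at hnm
      simp at hnm
    have hxm : (m : ℝ) ≤ x := by rw [← hx]; exact Nat.floor_le hx0
    have hxm' : x < m + 1 := by rw [← hx]; exact Nat.lt_floor_add_one x
    have a1 : ((Nat.sqrt m : ℕ) : ℝ) ^ 2 ≤ m := by exact_mod_cast Nat.sqrt_le' m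
    have a2 : (m : ℝ) + 1 ≤ (((Nat.sqrt m : ℕ) : ℝ) + 1) ^ 2 := by exact_mod_cast Nat.lt_succ_sqrt' m
    have h2 := schinzelAt (δ := δ) hη0 hη1 (by linarith) (by omega)
      (hM.trans (by exact_mod_cast (by omega : M ≤ Nat.sqrt m))) (a1.trans hxm) (by linarith) hg
    intro u v hu hv
    obtain ⟨h3, h4⟩ := h2 u v hu hv
    refine ⟨h3, h4.trans (mul_le_mul_of_nonneg_right (by linarith) ?_)⟩
    have h5 : 0 ≤ Real.log x := by
      apply Real.log_nonneg
      have : (1 : ℝ) ≤ m := by
        have h6 : 1 ≤ m := by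
          have := Nat.sqrt_le_self m
          omega
        exact_mod_cast h6
      linarith
    positivity
  filter_upwards [Run7.h469.Tm.approximations _ h1 d V hd] with θ hθ
  refine hθ.subset ?_
  rintro z ⟨h2, x, h3, h4⟩
  exact ⟨h2, ⌊x⌋₊, h3, fun h6 => h4 (h6 x rfl)⟩

end Pool.Agent.Results.MP_b8a134_nt.NearApproximations
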