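import Mathlib
import Pool.Agent.Run7.h794.MK.All
import Pool.Agent.Run7.h591.EG.Fin4

set_option autoImplicit false
set_option maxHeartbeats 4000000

namespace Pool.Agent.Results.MP_b8a134_nt.SweepOutReal

open Finset MeasureTheory
open Pool.Agent.Run7.h591.EG
open Pool.Agent.H373R2.T7 (ev_L' ev_log')

/-- the points `y` which are in `A` at some prime time strictly between `x` and `x + √x` -/
def visit {X : Type*} (T : X → X) (A : Set X) (x : ℝ) : Set X :=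
  {y | ∃ p : ℕ, p.Prime ∧ x < p ∧ (p : ℝ) < x + √x ∧ T^[p] y ∈ A}

theorem result {X : Type*} [MeasurableSpace X] (μ : Measure X) [IsProbabilityMeasure μ] (T : X → X)
    (hT : MeasurePreserving T μ μ) (hE : ∀ r : ℕ, 1 ≤ r → Ergodic T^[r] μ) (A : Set X) (hA : MeasurableSet A)
    (hA0 : μ A ≠ 0) (ε : ℝ) (hε : 0 < ε) :
    ∀ C : ℕ, ∃ Y₀ : ℕ, ∀ Y : ℕ, Y₀ ≤ Y → ∃ E : Set ℝ, MeasurableSet E ∧
      volume E ≤ ENNReal.ofReal (Y / Real.log Y ^ C) ∧
      ∀ x : ℝ, (Y : ℝ) ≤ x → x < 2 * Y → x ∉ E → 1 - ε < μ.real (visit T A x) := by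
  intro C
  have hA1 : 0 < μ.real A := by
    rw [measureReal_def]
    exact ENNReal.toReal_pos hA0 (measure_ne_top μ A)
  have h1 := sweep Pool.Agent.Run7.h794.MK.all_all hT hE hA hA1 ε hε
  obtain ⟨X₀, h2⟩ := AW_int h1 C 1
  obtain ⟨n1, h3⟩ := ev_L' 2
  refine ⟨max (max X₀ n1) 64, fun Y hY => ?_⟩
  obtain ⟨Bad, b1, b2, b3⟩ := h2 Y (le_trans (le_trans (le_max_left _ _) (le_max_left _ _)) hY)
  have hL := h3 Y (le_trans (le_trans (le_max_right _ _) (le_max_left _ _)) hY)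
  have hY64 : 64 ≤ Y := le_trans (le_max_right _ _) hY
  have hYR : (64 : ℝ) ≤ Y := by exact_mod_cast hY64
  have hs8 : 8 ≤ √(Y : ℝ) := Real.le_sqrt_of_sq_le (by nlinarith)
  have hsY : √(Y : ℝ) < Nat.sqrt Y + 1 := by
    rw [Real.sqrt_lt' (by positivity)]
    exact_mod_cast Nat.lt_succ_sqrt' Y
  have hsY2 : (Nat.sqrt Y : ℝ) ≤ √(Y : ℝ) := by
    apply Real.le_sqrt_of_sq_le
    exact_mod_cast Nat.sqrt_le' Y
  have h8 : 8 ≤ Nat.sqrt Y := Nat.le_sqrt'.2 (by omega)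
  refine ⟨⋃ m ∈ Bad, Set.Ico ((m : ℝ) - 1) m, Finset.measurableSet_biUnion _ (fun m _ => measurableSet_Ico), ?_, ?_⟩
  · refine (measure_biUnion_finset_le _ _).trans ?_
    have h4 : ∀ m ∈ Bad, volume (Set.Ico ((m : ℝ) - 1) m) = 1 := by
      intro m _
      rw [Real.volume_Ico]
      simp
    rw [sum_congr rfl h4, sum_const, nsmul_eq_mul, mul_one, ← ENNReal.ofReal_natCast]
    exact ENNReal.ofReal_le_ofReal b2
  · intro x hx1 hx2 hxE
    have hx0 : 0 ≤ x := by linarith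
    set m : ℕ := ⌊x⌋₊ + 1 with hm
    have hf1 : (⌊x⌋₊ : ℝ) ≤ x := Nat.floor_le hx0
    have hf2 : x < ⌊x⌋₊ + 1 := Nat.lt_floor_add_one x
    have hmI : m ∈ Ioc Y (2 * Y) := by
      rw [mem_Ioc]
      have g1 : Y ≤ ⌊x⌋₊ := Nat.le_floor hx1
      have g2 : ⌊x⌋₊ < 2 * Y := (Nat.floor_lt hx0).2 (by push_cast; exact hx2)
      omega
    have hmB : m ∉ Bad := by
      intro h
      apply hxE
      refine Set.mem_biUnion h ?_
      rw [hm]
      push_cast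
      exact ⟨by linarith, hf2⟩
    obtain ⟨N, n, _, _, _, _, _, hQ⟩ := b3 m hmI hmB (Nat.sqrt Y - 2) (by
      rw [pow_one, Nat.cast_sub (by omega)]
      push_cast
      have e1 : √(Y : ℝ) / Real.log Y ≤ √(Y : ℝ) / 2 := by gcongr
      linarith) (by omega)
    refine hQ.trans_le (measureReal_mono ?_ (measure_ne_top μ _))
    intro y hy
    simp only [Set.mem_iUnion, pr, mem_filter, mem_Ioc, Set.mem_preimage, exists_prop] at hy
    obtain ⟨p, ⟨⟨e1, e2⟩, e3⟩, e4⟩ := hy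
    refine ⟨p, e3, ?_, ?_, e4⟩
    · have g3 : (m : ℝ) ≤ p := by exact_mod_cast e1.le
      rw [hm] at g3
      push_cast at g3
      linarith
    · have g3 : (p : ℝ) ≤ m + ((Nat.sqrt Y - 2 : ℕ) : ℝ) := by exact_mod_cast e2
      rw [hm, Nat.cast_sub (by omega)] at g3
      push_cast at g3
      have g4 : √(Y : ℝ) ≤ √x := Real.sqrt_le_sqrt hx1
      linarith

end Pool.Agent.Results.MP_b8a134_nt.SweepOutReal
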